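import Pool.Agent.H859Z.NmG

open MeasureTheory Pool.Agent.H859Z.Nm

theorem Pool.Agent.Results.MP_ec389a_an.APosEntropy.result :
    ∃ (c : ℝ) (μ : Measure ℂ), IsNeutral (fun z : ℂ => z ^ 2 + c) μ ∧ IsCompact μ.support ∧
      ∃ h : Set.MapsTo (fun z : ℂ => z ^ 2 + c) μ.support μ.support,
        0 < Dynamics.coverEntropy (h.restrict (fun z : ℂ => z ^ 2 + c) μ.support μ.support)
          Set.univ := by
  obtain ⟨c, μ, h1, h2, h3, h4, -⟩ := main
  exact ⟨c, μ, h1, h2, h3, by rw [Dynamics.coverEntropy_restrict]; exact h4⟩
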