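import Pool.Agent.H859Z.NmG

open MeasureTheory Pool.Agent.H859Z.Nm

theorem Pool.Agent.Results.MP_ec389a_an.BNotMinimal.result :
    ∃ (c : ℝ) (μ : Measure ℂ), IsNeutral (fun z : ℂ => z ^ 2 + c) μ ∧
      ∃ z ∈ μ.support, (∃ p : ℕ, 1 ≤ p ∧ (fun z : ℂ => z ^ 2 + c)^[p] z = z) ∧
        (∀ n : ℕ, (fun z : ℂ => z ^ 2 + c)^[n] z ∈ μ.support) ∧
        ¬ μ.support ⊆ closure (Set.range fun n : ℕ => (fun z : ℂ => z ^ 2 + c)^[n] z) := by
  obtain ⟨c, μ, h1, -, h3, -, h5, z, hz, h6⟩ := main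
  refine ⟨c, μ, h1, z, hz, ⟨2, by norm_num, h6⟩, fun n => h3.iterate n hz, fun h => h5 ?_⟩
  have h7 : (Set.range fun n : ℕ => (F c)^[n] z).Finite := by
    refine ((Set.finite_lt_nat 2).image fun n : ℕ => (F c)^[n] z).subset ?_
    rintro _ ⟨n, rfl⟩
    exact ⟨n % 2, Nat.mod_lt _ two_pos, Function.IsPeriodicPt.iterate_mod_apply h6 n⟩
  exact h7.subset (h.trans h7.isClosed.closure_subset)
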